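import Pool.Agent.Helper44.GH.Stmts

/-!
# The Efron-Stein inequality for the product measure
-/

open Finset

namespace Pool.Agent.Helper44.GH

open Pool.Agent.Helper44.GF Pool.Agent.Helper44.GN

namespace ES72

section

variable {n : ℕ} {Y : Type} [Fintype Y] [DecidableEq Y]

/-- The weight of the product measure. -/
noncomputable def Wy (δ : ℝ) (r z : Y → ℝ) (y : Fin n → ℝ) (η : Finset (Fin n × Y)) : ℝ :=
  zw z η * Real.exp (-∑ i, tau δ r η i * y i ^ 2)

/-- The birth rates. -/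
noncomputable def by' (r z : Y → ℝ) (y : Fin n → ℝ) (_ : Finset (Fin n × Y))
    (x : Fin n × Y) : ℝ := z x.2 * Real.exp (-(r x.2 * y x.1 ^ 2))

omit [Fintype Y] [DecidableEq Y] in
theorem zw_pos {z : Y → ℝ} (hz : ∀ y, 0 < z y) (η : Finset (Fin n × Y)) : 0 < zw z η :=
  Finset.prod_pos fun x _ => hz x.2

theorem Wy_pos {δ : ℝ} {r z : Y → ℝ} (hz : ∀ y, 0 < z y) (y : Fin n → ℝ)
    (η : Finset (Fin n × Y)) : 0 < Wy δ r z y η := mul_pos (zw_pos hz η) (Real.exp_pos _)

theorem tau_insert (δ : ℝ) (r : Y → ℝ) (η : Finset (Fin n × Y)) (x : Fin n × Y) (hx : x ∉ η)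
    (i : Fin n) : tau δ r (insert x η) i = tau δ r η i + if i = x.1 then r x.2 else 0 := by
  obtain ⟨a, c⟩ := x
  unfold tau
  have key : ∀ y : Y, (if (i, y) ∈ insert (a, c) η then r y else 0)
      = (if (i, y) ∈ η then r y else 0) + (if i = a ∧ y = c then r y else 0) := by
    intro y
    by_cases h1 : i = a ∧ y = c
    · obtain ⟨rfl, rfl⟩ := h1
      simp [hx]
    · have h2 : (i, y) ∈ insert (a, c) η ↔ (i, y) ∈ η := by
        rw [Finset.mem_insert, Prod.mk.injEq]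
        constructor
        · rintro (h | h)
          · exact absurd h h1
          · exact h
        · exact Or.inr
      simp only [h2, if_neg h1, add_zero]
  rw [Finset.sum_congr rfl fun y _ => key y, Finset.sum_add_distrib]
  have h3 : ∑ y, (if i = a ∧ y = c then r y else 0) = if i = a then r c else 0 := by
    by_cases h : i = a
    · simp [h]
    · simp [h]
  rw [h3]
  ring

theorem lin_insert (δ : ℝ) (r : Y → ℝ) (η : Finset (Fin n × Y)) (x : Fin n × Y) (hx : x ∉ η)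
    (l : Fin n → ℝ) : ∑ i, l i * tau δ r (insert x η) i
      = ∑ i, l i * tau δ r η i + l x.1 * r x.2 := by
  have : ∀ i, l i * tau δ r (insert x η) i
      = l i * tau δ r η i + (if i = x.1 then l i * r x.2 else 0) := by
    intro i
    rw [tau_insert δ r η x hx i]
    split_ifs <;> ring
  rw [Finset.sum_congr rfl fun i _ => this i, Finset.sum_add_distrib]
  simp

theorem compat (δ : ℝ) (r z : Y → ℝ) (y : Fin n → ℝ) :
    Compat (Wy δ r z y) (by' r z y) := by
  intro η x hx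
  unfold Wy by' zw
  rw [Finset.prod_insert hx]
  have h1 : ∑ i, tau δ r (insert x η) i * y i ^ 2
      = ∑ i, tau δ r η i * y i ^ 2 + y x.1 ^ 2 * r x.2 := by
    have := lin_insert δ r η x hx (fun i => y i ^ 2)
    simp only [mul_comm (_ ^ 2) (tau _ _ _ _)] at this
    exact this
  rw [h1, neg_add, Real.exp_add]
  have h2 : -(y x.1 ^ 2 * r x.2) = -(r x.2 * y x.1 ^ 2) := by ring
  rw [h2]
  ring

theorem gap (hB : ST_BOCH) (hG : ST_GAP) (δ : ℝ) (r z : Y → ℝ) (hz : ∀ y, 0 < z y)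
    (y : Fin n → ℝ) (F : Finset (Fin n × Y) → ℝ) :
    (∑ η, Wy δ r z y η) * (∑ η, Wy δ r z y η * F η ^ 2) - (∑ η, Wy δ r z y η * F η) ^ 2
      ≤ (∑ η, Wy δ r z y η) * dir (Wy δ r z y) (by' r z y) F := by
  have hb : ∀ (η : Finset (Fin n × Y)) x, 0 < by' r z y η x :=
    fun η x => mul_pos (hz _) (Real.exp_pos _)
  have h := hG (Fin n × Y) (Wy δ r z y) (by' r z y) (Wy_pos hz y) hb (compat δ r z y) 1
    one_pos ?_ F
  · simpa using h
  · intro g
    rw [hB (Fin n × Y) (Wy δ r z y) (by' r z y) (fun _ _ _ => 1) (compat δ r z y)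
      (fun η x y _ _ _ => by simp [by']) g, one_mul, add_assoc]
    refine le_add_of_nonneg_right (add_nonneg ?_ ?_)
    · exact Finset.sum_nonneg fun η _ => mul_nonneg (Wy_pos hz y η).le
        (Finset.sum_nonneg fun x _ => by positivity)
    · refine Finset.sum_nonneg fun η _ => mul_nonneg (Wy_pos hz y η).le
        (Finset.sum_nonneg fun x _ => Finset.sum_nonneg fun x' _ => ?_)
      have h1 := hb η x
      have h2 := hb η x'
      rw [sub_self, zero_mul, zero_add, one_mul]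
      positivity

theorem Zy_eq (δ : ℝ) (r z : Y → ℝ) (F : Finset (Fin n × Y) → ℝ) (y : Fin n → ℝ) :
    Zy δ r z F y = ∑ η, Wy δ r z y η * F η := rfl

theorem Z1_eq (δ : ℝ) (r z : Y → ℝ) (y : Fin n → ℝ) :
    Zy δ r z (fun _ => 1) y = ∑ η, Wy δ r z y η := by
  rw [Zy_eq]
  simp

theorem Z1_pos (δ : ℝ) (r z : Y → ℝ) (hz : ∀ y, 0 < z y) (y : Fin n → ℝ) :
    0 < ∑ η, Wy δ r z y η :=
  Finset.sum_pos (fun η _ => Wy_pos hz y η) ⟨∅, Finset.mem_univ _⟩

theorem part1 (hB : ST_BOCH) (hG : ST_GAP) (δ : ℝ) (r z : Y → ℝ) (hz : ∀ y, 0 < z y)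
    (F : Finset (Fin n × Y) → ℝ) (y : Fin n → ℝ) :
    vy δ r z F y ≤ EY δ r z (fun η => ∑ x ∈ ηᶜ,
      z x.2 * Real.exp (-(r x.2 * y x.1 ^ 2)) * dd F η x ^ 2) y := by
  have h := gap hB hG δ r z hz y F
  have hp := Z1_pos δ r z hz y
  unfold vy EY
  rw [Z1_eq, Zy_eq, Zy_eq, Zy_eq]
  have hd : dir (Wy δ r z y) (by' r z y) F = ∑ η, Wy δ r z y η * ∑ x ∈ ηᶜ,
      z x.2 * Real.exp (-(r x.2 * y x.1 ^ 2)) * dd F η x ^ 2 := rfl
  rw [← hd]
  set S := ∑ η, Wy δ r z y η
  set A := ∑ η, Wy δ r z y η * F η ^ 2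
  set B := ∑ η, Wy δ r z y η * F η
  set D := dir (Wy δ r z y) (by' r z y) F
  rw [div_pow, div_sub_div _ _ hp.ne' (pow_ne_zero 2 hp.ne'), div_le_div_iff₀ (by positivity) hp]
  have h2 := mul_le_mul_of_nonneg_left h (sq_nonneg S)
  nlinarith [h2]

/-- The normalised weights. -/
noncomputable def Py (δ : ℝ) (r z : Y → ℝ) (y : Fin n → ℝ) (η : Finset (Fin n × Y)) : ℝ :=
  Wy δ r z y η / ∑ η, Wy δ r z y η

theorem EY_eq (δ : ℝ) (r z : Y → ℝ) (F : Finset (Fin n × Y) → ℝ) (y : Fin n → ℝ) :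
    EY δ r z F y = ∑ η, Py δ r z y η * F η := by
  unfold EY Py
  rw [Z1_eq, Zy_eq, Finset.sum_div]
  exact Finset.sum_congr rfl fun η _ => by ring

theorem Py_sum (δ : ℝ) (r z : Y → ℝ) (hz : ∀ y, 0 < z y) (y : Fin n → ℝ) :
    ∑ η : Finset (Fin n × Y), Py δ r z y η = 1 := by
  unfold Py
  rw [← Finset.sum_div, div_self (Z1_pos δ r z hz y).ne']

theorem Py_pos (δ : ℝ) (r z : Y → ℝ) (hz : ∀ y, 0 < z y) (y : Fin n → ℝ)
    (η : Finset (Fin n × Y)) : 0 < Py δ r z y η :=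
  div_pos (Wy_pos hz y η) (Z1_pos δ r z hz y)

theorem cov_cs {ι : Type*} [Fintype ι] (P F L : ι → ℝ) (hP : ∀ i, 0 ≤ P i) (h1 : ∑ i, P i = 1) :
    (∑ i, P i * (F i * L i) - (∑ i, P i * F i) * ∑ i, P i * L i) ^ 2
      ≤ (∑ i, P i * F i ^ 2 - (∑ i, P i * F i) ^ 2)
        * (∑ i, P i * L i ^ 2 - (∑ i, P i * L i) ^ 2) := by
  have key : ∀ F L : ι → ℝ, ∑ i, P i * (F i * L i) - (∑ i, P i * F i) * ∑ i, P i * L i
      = ∑ i, (√(P i) * (F i - ∑ i, P i * F i)) * (√(P i) * (L i - ∑ i, P i * L i)) := by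
    intro F L
    set a := ∑ i, P i * F i with ha
    set c := ∑ i, P i * L i with hc
    have : ∀ i, (√(P i) * (F i - a)) * (√(P i) * (L i - c))
        = P i * (F i * L i) - c * (P i * F i) - a * (P i * L i) + a * c * P i := by
      intro i
      have := Real.mul_self_sqrt (hP i)
      linear_combination ((F i - a) * (L i - c)) * this
    rw [Finset.sum_congr rfl fun i _ => this i, Finset.sum_add_distrib, Finset.sum_sub_distrib,
      Finset.sum_sub_distrib, ← Finset.mul_sum, ← Finset.mul_sum, ← Finset.mul_sum, h1, ← ha, ← hc]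
    ring
  have k1 := key F L
  have k2 := key F F
  have k3 := key L L
  simp only [← sq] at k2 k3
  rw [k1, k2, k3]
  exact Finset.sum_mul_sq_le_sq_mul_sq _ _ _

theorem part2 (hB : ST_BOCH) (hG : ST_GAP) (δ : ℝ) (r z : Y → ℝ) (hz : ∀ y, 0 < z y)
    (F : Finset (Fin n × Y) → ℝ) (y : Fin n → ℝ) (l : Fin n → ℝ) :
    (∑ i, l i * cy δ r z F y i) ^ 2
      ≤ vy δ r z F y * ∑ i, l i ^ 2 * tz r z (y i ^ 2) := by
  set L : Finset (Fin n × Y) → ℝ := fun η => ∑ i, l i * tau δ r η i with hL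
  -- the variance of L
  have hv : vy δ r z L y ≤ ∑ i, l i ^ 2 * tz r z (y i ^ 2) := by
    refine (part1 hB hG δ r z hz L y).trans ?_
    rw [EY_eq]
    have hC : ∑ i, l i ^ 2 * tz r z (y i ^ 2)
        = ∑ x : Fin n × Y, z x.2 * Real.exp (-(r x.2 * y x.1 ^ 2)) * (l x.1 * r x.2) ^ 2 := by
      rw [Fintype.sum_prod_type]
      refine Finset.sum_congr rfl fun i _ => ?_
      unfold tz
      rw [Finset.mul_sum]
      refine Finset.sum_congr rfl fun c _ => ?_
      rw [mul_comm (r c) (y i ^ 2)]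
      ring
    rw [hC]
    have h1 : ∀ η : Finset (Fin n × Y), Py δ r z y η * ∑ x ∈ ηᶜ,
        z x.2 * Real.exp (-(r x.2 * y x.1 ^ 2)) * dd L η x ^ 2
        ≤ Py δ r z y η * ∑ x : Fin n × Y,
          z x.2 * Real.exp (-(r x.2 * y x.1 ^ 2)) * (l x.1 * r x.2) ^ 2 := by
      intro η
      refine mul_le_mul_of_nonneg_left ?_ (Py_pos δ r z hz y η).le
      have h2 : ∑ x ∈ ηᶜ, z x.2 * Real.exp (-(r x.2 * y x.1 ^ 2)) * dd L η x ^ 2
          = ∑ x ∈ ηᶜ, z x.2 * Real.exp (-(r x.2 * y x.1 ^ 2)) * (l x.1 * r x.2) ^ 2 := by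
        refine Finset.sum_congr rfl fun x hx => ?_
        rw [Finset.mem_compl] at hx
        have : dd L η x = l x.1 * r x.2 := by
          unfold dd
          rw [hL]
          simp only
          rw [lin_insert δ r η x hx l]
          ring
        rw [this]
      rw [h2]
      refine Finset.sum_le_sum_of_subset_of_nonneg (Finset.subset_univ _) fun x _ _ => ?_
      have := hz x.2
      positivity
    refine (Finset.sum_le_sum fun η _ => h1 η).trans_eq ?_
    rw [← Finset.sum_mul, Py_sum δ r z hz y, one_mul]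
  -- the covariance
  have hc : ∑ i, l i * cy δ r z F y i
      = ∑ η, Py δ r z y η * (F η * L η)
        - (∑ η, Py δ r z y η * F η) * ∑ η, Py δ r z y η * L η := by
    have h1 : ∑ η, Py δ r z y η * (F η * L η)
        = ∑ i, l i * ∑ η, Py δ r z y η * (F η * tau δ r η i) := by
      simp only [hL, Finset.mul_sum]
      rw [Finset.sum_comm]
      exact Finset.sum_congr rfl fun i _ => Finset.sum_congr rfl fun η _ => by ring
    have h2 : ∑ η, Py δ r z y η * L η = ∑ i, l i * ∑ η, Py δ r z y η * tau δ r η i := by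
      simp only [hL, Finset.mul_sum]
      rw [Finset.sum_comm]
      exact Finset.sum_congr rfl fun i _ => Finset.sum_congr rfl fun η _ => by ring
    rw [h1, h2, Finset.mul_sum, ← Finset.sum_sub_distrib]
    refine Finset.sum_congr rfl fun i _ => ?_
    unfold cy
    rw [EY_eq, EY_eq, EY_eq]
    ring
  have hcs := cov_cs (Py δ r z y) F L (fun η => (Py_pos δ r z hz y η).le) (Py_sum δ r z hz y)
  have hvF : vy δ r z F y = ∑ η, Py δ r z y η * F η ^ 2 - (∑ η, Py δ r z y η * F η) ^ 2 := by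
    unfold vy
    rw [EY_eq, EY_eq]
  have hvL : vy δ r z L y = ∑ η, Py δ r z y η * L η ^ 2 - (∑ η, Py δ r z y η * L η) ^ 2 := by
    unfold vy
    rw [EY_eq, EY_eq]
  rw [← hc, ← hvF, ← hvL] at hcs
  have hF0 : 0 ≤ vy δ r z F y := by
    have h := cov_cs (Py δ r z y) F F (fun η => (Py_pos δ r z hz y η).le) (Py_sum δ r z hz y)
    have h2 : (∑ η, Py δ r z y η * F η ^ 2 - (∑ η, Py δ r z y η * F η) ^ 2)
        = ∑ η, Py δ r z y η * (F η - ∑ η, Py δ r z y η * F η) ^ 2 := by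
      set a := ∑ η, Py δ r z y η * F η with ha
      have : ∀ η, Py δ r z y η * (F η - a) ^ 2
          = Py δ r z y η * F η ^ 2 - 2 * a * (Py δ r z y η * F η) + a ^ 2 * Py δ r z y η :=
        fun η => by ring
      rw [Finset.sum_congr rfl fun η _ => this η, Finset.sum_add_distrib, Finset.sum_sub_distrib,
        ← Finset.mul_sum, ← Finset.mul_sum, Py_sum δ r z hz y, ← ha]
      ring
    rw [hvF, h2]
    exact Finset.sum_nonneg fun η _ => mul_nonneg (Py_pos δ r z hz y η).le (sq_nonneg _)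
  exact hcs.trans (mul_le_mul_of_nonneg_left hv hF0)

end

end ES72

theorem st_ES (hB : Pool.Agent.Helper44.GF.ST_BOCH) (hG : Pool.Agent.Helper44.GF.ST_GAP) :
    ST_ES := by
  intro n Y _ _ δ r z _ _ hz F y
  exact ⟨ES72.part1 hB hG δ r z hz F y, fun l => ES72.part2 hB hG δ r z hz F y l⟩

end Pool.Agent.Helper44.GH
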